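import Pool.Agent.helper48.AGR.Spec

/-!
# Row NRM: `V` is normal in the amalgam
-/

set_option autoImplicit false

namespace Pool.Agent.AGR

open Monoid Function

theorem NRM : NRM_stmt := by
  intro L R C _ _ _ f g v hf hg x
  refine am_induction (motive := fun x => ∀ a : Vt, ∃ b : Vt,
    x * inl (f (v a)) * x⁻¹ = inl (f (v b))) x ?_ ?_ ?_
  · intro y a
    obtain ⟨b, hb⟩ := hf.nrm y a
    refine ⟨b, ?_⟩
    have h : y * f (v a) * y⁻¹ = f (v b) := hb
    rw [← h, map_mul, map_mul, map_inv]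
  · intro y a
    obtain ⟨b, hb⟩ := hg.nrm y a
    refine ⟨b, ?_⟩
    have h : y * g (v a) * y⁻¹ = g (v b) := hb
    rw [glue, glue, ← h, map_mul, map_mul, map_inv]
  · intro y z hy hz a
    obtain ⟨b, hb⟩ := hz a
    obtain ⟨c, hc⟩ := hy b
    refine ⟨c, ?_⟩
    rw [← hc, ← hb, mul_inv_rev]
    simp only [mul_assoc]

end Pool.Agent.AGR
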